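import Mathlib

set_option autoImplicit false

namespace Pool.Agent.Results.MP_fd91d0_co.Disproof

open Finset

/-- The dissociativity dimension of a finite subset `A` of an abelian group: the largest size of
a dissociated subset of `A` (`AddDissociated` is Mathlib's predicate: distinct finite subsets
have distinct sums). -/
noncomputable def dissDim {G : Type*} [AddCommGroup G] (A : Finset G) : ℕ :=
  sSup {k : ℕ | ∃ B : Finset G, B ⊆ A ∧ AddDissociated (B : Set G) ∧ B.card = k}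

/-- `dim(G, m)`: the least dissociativity dimension of an `m`-element subset of `G`. -/
noncomputable def minDissDim (G : Type*) [AddCommGroup G] (m : ℕ) : ℕ :=
  sInf {d : ℕ | ∃ A : Finset G, A.card = m ∧ dissDim A = d}

theorem dissociated_of_no_relation {G : Type*} [AddCommGroup G] [DecidableEq G] (B : Finset G)
    (h : ∀ e : G → ℤ, (∀ b, e b = -1 ∨ e b = 0 ∨ e b = 1) → ∑ b ∈ B, e b • b = 0 →
      ∀ b ∈ B, e b = 0) : AddDissociated (B : Set G) := by
  intro t ht u hu htu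
  simp only [Set.mem_ofPred_eq, coe_subset] at ht hu
  simp only at htu
  have key := h (fun b => (if b ∈ t then 1 else 0) - (if b ∈ u then 1 else 0))
    (by intro b; by_cases h1 : b ∈ t <;> by_cases h2 : b ∈ u <;> simp [h1, h2])
    (by
      simp only [sub_smul, Finset.sum_sub_distrib, ite_smul, one_smul, zero_smul]
      rw [Finset.sum_ite_mem, Finset.sum_ite_mem, Finset.inter_eq_right.2 ht,
        Finset.inter_eq_right.2 hu, htu, sub_self])
  ext b
  constructor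
  · intro hb
    by_contra hb'
    have := key b (ht hb)
    simp [hb, hb'] at this
  · intro hb
    by_contra hb'
    have := key b (hu hb)
    simp [hb, hb'] at this

theorem card_le_four (B : Finset (ZMod 17)) (hB : AddDissociated (B : Set (ZMod 17))) :
    B.card ≤ 4 := by
  have h1 : B.powerset.card ≤ (Finset.univ : Finset (ZMod 17)).card := by
    apply Finset.card_le_card_of_injOn (fun t => ∑ x ∈ t, x)
    · intro t _
      simp
    · intro t ht u hu htu
      exact hB (by simpa using ht) (by simpa using hu) htu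
  rw [Finset.card_powerset, Finset.card_univ, ZMod.card] at h1
  by_contra hcon
  have : 2 ^ 5 ≤ 2 ^ B.card := Nat.pow_le_pow_right (by norm_num) (by omega)
  omega

theorem base_relation : ∀ a ∈ ({-1, 0, 1} : Finset (ZMod 17)), ∀ b ∈ ({-1, 0, 1} : Finset (ZMod 17)),
    ∀ c ∈ ({-1, 0, 1} : Finset (ZMod 17)), ∀ d ∈ ({-1, 0, 1} : Finset (ZMod 17)),
    a * 3 + b * 5 + c * 6 + d * 7 = 0 → a = 0 ∧ b = 0 ∧ c = 0 ∧ d = 0 := by
  decide +kernel

theorem exists_pair (A : Finset (ZMod 17)) (hA : 14 ≤ A.card) :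
    ∃ w : ZMod 17, w ≠ 0 ∧ ∀ x : ZMod 17, x ≠ 0 → x ≠ w → x ≠ -w → x ∈ A ∨ -x ∈ A := by
  by_cases h : ∃ w : ZMod 17, w ≠ 0 ∧ w ∉ A ∧ -w ∉ A
  · obtain ⟨w, hw0, hw1, hw2⟩ := h
    refine ⟨w, hw0, fun x hx0 hx1 hx2 => ?_⟩
    by_contra hcon
    push Not at hcon
    obtain ⟨h1, h2⟩ := hcon
    have hsub : ({w, -w, x, -x} : Finset (ZMod 17)) ⊆ Aᶜ := by
      intro y hy
      simp only [mem_insert, mem_singleton] at hy
      rw [mem_compl]
      rcases hy with rfl | rfl | rfl | rfl <;> assumption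
    have hne : ∀ y : ZMod 17, y ≠ 0 → y ≠ -y := by decide
    have hcard : ({w, -w, x, -x} : Finset (ZMod 17)).card = 4 := by
      have e1 : w ≠ -w := hne w hw0
      have e2 : x ≠ -x := hne x hx0
      have e3 : w ≠ -x := fun h => hx2 (by rw [h, neg_neg])
      have e4 : -w ≠ -x := fun h => hx1 (neg_injective h).symm
      rw [card_insert_of_notMem, card_insert_of_notMem, card_insert_of_notMem, card_singleton]
      · simpa using e2
      · simp only [mem_insert, mem_singleton, not_or]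
        exact ⟨fun h => hx2 h.symm, e4⟩
      · simp only [mem_insert, mem_singleton, not_or]
        exact ⟨e1, fun h => hx1 h.symm, e3⟩
    have h3 := card_le_card hsub
    rw [hcard, card_compl, ZMod.card] at h3
    omega
  · push Not at h
    refine ⟨1, by decide, fun x hx _ _ => ?_⟩
    by_cases hxA : x ∈ A
    · exact Or.inl hxA
    · exact Or.inr (h x hx hxA)

theorem coef_mem (e s : ℤ) (he : e = -1 ∨ e = 0 ∨ e = 1) (hs : s = 1 ∨ s = -1) :
    (e : ZMod 17) * (s : ZMod 17) ∈ ({-1, 0, 1} : Finset (ZMod 17)) := by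
  rcases he with rfl | rfl | rfl <;> rcases hs with rfl | rfl <;> decide

theorem coef_zero (e s : ℤ) (he : e = -1 ∨ e = 0 ∨ e = 1) (hs : s = 1 ∨ s = -1)
    (h : (e : ZMod 17) * (s : ZMod 17) = 0) : e = 0 := by
  rcases he with rfl | rfl | rfl
  · exfalso
    rcases hs with rfl | rfl <;> revert h <;> decide
  · rfl
  · exfalso
    rcases hs with rfl | rfl <;> revert h <;> decide

theorem exists_dissociated (A : Finset (ZMod 17)) (hA : 14 ≤ A.card) :
    ∃ B : Finset (ZMod 17), B ⊆ A ∧ AddDissociated (B : Set (ZMod 17)) ∧ B.card = 4 := by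
  obtain ⟨w, hw0, hw⟩ := exists_pair A hA
  have hu : ∀ w : ZMod 17, w ≠ 0 → ∀ d ∈ ({3, 5, 6, 7} : Finset (ZMod 17)),
      w * 15 * d ≠ 0 ∧ w * 15 * d ≠ w ∧ w * 15 * d ≠ -w := by decide +kernel
  have hs : ∀ d ∈ ({3, 5, 6, 7} : Finset (ZMod 17)),
      ∃ s : ℤ, (s = 1 ∨ s = -1) ∧ (s : ZMod 17) * (w * 15 * d) ∈ A := by
    intro d hd
    obtain ⟨h1, h2, h3⟩ := hu w hw0 d hd
    rcases hw _ h1 h2 h3 with h | h
    · exact ⟨1, Or.inl rfl, by simpa using h⟩
    · exact ⟨-1, Or.inr rfl, by simpa using h⟩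
  obtain ⟨s1, hs1, m1⟩ := hs 3 (by simp)
  obtain ⟨s2, hs2, m2⟩ := hs 5 (by simp)
  obtain ⟨s3, hs3, m3⟩ := hs 6 (by simp)
  obtain ⟨s4, hs4, m4⟩ := hs 7 (by simp)
  set x1 : ZMod 17 := (s1 : ZMod 17) * (w * 15 * 3) with hx1
  set x2 : ZMod 17 := (s2 : ZMod 17) * (w * 15 * 5) with hx2
  set x3 : ZMod 17 := (s3 : ZMod 17) * (w * 15 * 6) with hx3
  set x4 : ZMod 17 := (s4 : ZMod 17) * (w * 15 * 7) with hx4
  have hdist : ∀ w : ZMod 17, w ≠ 0 → ∀ s ∈ ({1, -1} : Finset (ZMod 17)),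
      ∀ t ∈ ({1, -1} : Finset (ZMod 17)),
      s * (w * 15 * 3) ≠ t * (w * 15 * 5) ∧ s * (w * 15 * 3) ≠ t * (w * 15 * 6) ∧
      s * (w * 15 * 3) ≠ t * (w * 15 * 7) ∧ s * (w * 15 * 5) ≠ t * (w * 15 * 6) ∧
      s * (w * 15 * 5) ≠ t * (w * 15 * 7) ∧ s * (w * 15 * 6) ≠ t * (w * 15 * 7) := by
    decide +kernel
  have hmem : ∀ s : ℤ, (s = 1 ∨ s = -1) → (s : ZMod 17) ∈ ({1, -1} : Finset (ZMod 17)) := by
    rintro s (rfl | rfl) <;> simp
  have n12 : x1 ≠ x2 := (hdist w hw0 _ (hmem _ hs1) _ (hmem _ hs2)).1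
  have n13 : x1 ≠ x3 := (hdist w hw0 _ (hmem _ hs1) _ (hmem _ hs3)).2.1
  have n14 : x1 ≠ x4 := (hdist w hw0 _ (hmem _ hs1) _ (hmem _ hs4)).2.2.1
  have n23 : x2 ≠ x3 := (hdist w hw0 _ (hmem _ hs2) _ (hmem _ hs3)).2.2.2.1
  have n24 : x2 ≠ x4 := (hdist w hw0 _ (hmem _ hs2) _ (hmem _ hs4)).2.2.2.2.1
  have n34 : x3 ≠ x4 := (hdist w hw0 _ (hmem _ hs3) _ (hmem _ hs4)).2.2.2.2.2
  have i1 : x1 ∉ ({x2, x3, x4} : Finset (ZMod 17)) := by
    simp only [mem_insert, mem_singleton, not_or]; exact ⟨n12, n13, n14⟩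
  have i2 : x2 ∉ ({x3, x4} : Finset (ZMod 17)) := by
    simp only [mem_insert, mem_singleton, not_or]; exact ⟨n23, n24⟩
  have i3 : x3 ∉ ({x4} : Finset (ZMod 17)) := by
    simp only [mem_singleton]; exact n34
  refine ⟨{x1, x2, x3, x4}, ?_, ?_, ?_⟩
  · intro y hy
    simp only [mem_insert, mem_singleton] at hy
    rcases hy with rfl | rfl | rfl | rfl <;> assumption
  · apply dissociated_of_no_relation
    intro e he hsum
    rw [sum_insert i1, sum_insert i2, sum_insert i3, sum_singleton] at hsum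
    simp only [zsmul_eq_mul] at hsum
    have hcoef : ∀ (s : ℤ), (s = 1 ∨ s = -1) → ∀ x : ZMod 17,
        ((e x : ℤ) : ZMod 17) * (s : ZMod 17) ∈ ({-1, 0, 1} : Finset (ZMod 17)) :=
      fun s hs x => coef_mem _ _ (he x) hs
    have hfac : (((e x1 : ℤ) : ZMod 17) * s1 * 3 + ((e x2 : ℤ) : ZMod 17) * s2 * 5 +
        ((e x3 : ℤ) : ZMod 17) * s3 * 6 + ((e x4 : ℤ) : ZMod 17) * s4 * 7) = 0 := by
      have h0 : (w * 15) * (((e x1 : ℤ) : ZMod 17) * s1 * 3 + ((e x2 : ℤ) : ZMod 17) * s2 * 5 +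
        ((e x3 : ℤ) : ZMod 17) * s3 * 6 + ((e x4 : ℤ) : ZMod 17) * s4 * 7) = 0 := by
        rw [← hsum, hx1, hx2, hx3, hx4]; ring
      have hcan : ∀ w : ZMod 17, w ≠ 0 → ∀ z : ZMod 17, w * 15 * z = 0 → z = 0 := by
        decide +kernel
      exact hcan w hw0 _ h0
    obtain ⟨z1, z2, z3, z4⟩ := base_relation _ (hcoef s1 hs1 x1) _ (hcoef s2 hs2 x2) _
      (hcoef s3 hs3 x3) _ (hcoef s4 hs4 x4) hfac
    have hzero : ∀ (s : ℤ), (s = 1 ∨ s = -1) → ∀ x : ZMod 17,
        ((e x : ℤ) : ZMod 17) * (s : ZMod 17) = 0 → e x = 0 :=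
      fun s hs x hx => coef_zero _ _ (he x) hs hx
    intro b hb
    simp only [mem_insert, mem_singleton] at hb
    rcases hb with rfl | rfl | rfl | rfl
    · exact hzero s1 hs1 _ z1
    · exact hzero s2 hs2 _ z2
    · exact hzero s3 hs3 _ z3
    · exact hzero s4 hs4 _ z4
  · rw [card_insert_of_notMem i1, card_insert_of_notMem i2, card_insert_of_notMem i3,
      card_singleton]

theorem dissDim_eq (A : Finset (ZMod 17)) (hA : 14 ≤ A.card) : dissDim A = 4 := by
  unfold dissDim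
  apply le_antisymm
  · apply csSup_le'
    rintro k ⟨B, _, hB, rfl⟩
    exact card_le_four B hB
  · apply le_csSup
    · refine ⟨4, ?_⟩
      rintro k ⟨B, _, hB, rfl⟩
      exact card_le_four B hB
    · exact exists_dissociated A hA

theorem minDissDim_eq (m : ℕ) (h1 : 14 ≤ m) (h2 : m ≤ 17) : minDissDim (ZMod 17) m = 4 := by
  unfold minDissDim
  have hset : {d : ℕ | ∃ A : Finset (ZMod 17), A.card = m ∧ dissDim A = d} = {4} := by
    ext d
    simp only [Set.mem_ofPred_eq, Set.mem_singleton_iff]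
    constructor
    · rintro ⟨A, hA, rfl⟩
      exact dissDim_eq A (by omega)
    · rintro rfl
      have hle : m ≤ (Finset.univ : Finset (ZMod 17)).card := by
        rw [card_univ, ZMod.card]; exact h2
      obtain ⟨A, _, hA⟩ := Finset.exists_subset_card_eq hle
      exact ⟨A, hA, dissDim_eq A (by omega)⟩
  rw [hset, csInf_singleton]

/-- The conjectured formula `dim(ℤ_n, m) = ⌊log₂ m⌋` is false: `dim(ℤ_17, 14) = dim(ℤ_17, 15) = 4`,
while `⌊log₂ 14⌋ = ⌊log₂ 15⌋ = 3`. -/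
theorem result :
    (minDissDim (ZMod 17) 14 = 4 ∧ Nat.log 2 14 = 3 ∧
      minDissDim (ZMod 17) 15 = 4 ∧ Nat.log 2 15 = 3) ∧
    ¬ ∀ n m : ℕ, 1 ≤ m → m ≤ n → minDissDim (ZMod n) m = Nat.log 2 m := by
  have h14 := minDissDim_eq 14 (by norm_num) (by norm_num)
  have h15 := minDissDim_eq 15 (by norm_num) (by norm_num)
  have l14 : Nat.log 2 14 = 3 := by
    rw [Nat.log_eq_iff] <;> norm_num
  have l15 : Nat.log 2 15 = 3 := by
    rw [Nat.log_eq_iff] <;> norm_num
  refine ⟨⟨h14, l14, h15, l15⟩, fun h => ?_⟩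
  have := h 17 14 (by norm_num) (by norm_num)
  rw [h14, l14] at this
  exact absurd this (by norm_num)

end Pool.Agent.Results.MP_fd91d0_co.Disproof
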